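import Pool.Agent.PFE.StmtsE2

/-!
# Squad PFE, part E2, row LHY: bimodule homomorphisms modulo `p` lift
-/

set_option autoImplicit false

open scoped BigOperators

noncomputable section

namespace Pool.Agent.PFE.H62

open MulOpposite
open Pool.Agent.PFC.B1 (FS Split BiM Sep)
open Pool.Agent.PFD (RF)
open Pool.Agent.PFD.D2
open Pool.Agent.PFD.D2b (wrp FPl FrR WFS)
open Pool.Agent.PFE

theorem lhy (kef : KefStmt) (hoy : HoyStmt) : LhyStmt := by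
  intro R Γ W M N X Ω Ω' Ω1 Ω1' _ _ _ _ _ _ _ _ _ _ _ _ _ _ _ _ _ _ l G χ BX BN FX FN p hl hχ
    hχu g hg
  obtain ⟨hg1, hg2⟩ := hg
  let S : Submodule R N := LinearMap.range (p • (LinearMap.id : N →ₗ[R] N))
  have hS : ∀ x, x ∈ S ↔ ∃ n, x = p • n := by
    intro x
    constructor
    · rintro ⟨n, rfl⟩
      exact ⟨n, rfl⟩
    · rintro ⟨n, rfl⟩
      exact ⟨n, rfl⟩
  have hlm : ∀ γ x, x ∈ S → BN.lm γ x ∈ S := by
    intro γ x hx
    obtain ⟨n, rfl⟩ := (hS _).1 hx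
    exact (hS _).2 ⟨BN.lm γ n, map_smul _ _ _⟩
  have h1 : ∀ γ x, g (BX.lm γ x) - BN.lm γ (g x) ∈ S := fun γ x => (hS _).2 (hg1 γ x)
  have h2 : ∀ γ x, g (BX.rm γ x) - BN.rm γ (g x) ∈ S := fun γ x => (hS _).2 (hg2 γ x)
  have hrm : ∀ γ x, x ∈ S → BN.rm γ x ∈ S := by
    intro γ x hx
    obtain ⟨n, rfl⟩ := (hS _).1 hx
    exact (hS _).2 ⟨BN.rm γ n, map_smul _ _ _⟩
  have h3 : ∀ γ δ x, g (BX.lm γ (BX.rm δ x)) - BN.lm γ (BN.rm δ (g x)) ∈ S := by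
    intro γ δ x
    have a := h1 γ (BX.rm δ x)
    have b := hlm γ _ (h2 δ x)
    rw [map_sub] at b
    have c := S.add_mem a b
    rwa [sub_add_sub_cancel] at c
  -- the lift of the twisted family
  obtain ⟨m, hm1, hm2, hm3⟩ := (kef R Γ W N X Ω1 Ω1' (W × W) Ω l G χ BN FN (MonoidHom.id _)
    FX.deg p (fun o => g (FX.g o)) hl hχ hχu FX.dg (fun w o => by
      rw [FX.gw]
      exact (hS _).1 (h3 _ _ _))).2 (fun o => by
      apply (hS _).1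
      have a := h1 G.y (FX.g o)
      have b := S.smul_mem (χ (FX.deg o)) (h2 (op G.y) (FX.g o))
      rw [FX.gy, map_smul] at a
      rw [smul_sub] at b
      have c := S.sub_mem b a
      rwa [sub_sub_sub_cancel_left] at c)
  obtain ⟨m', hm'1, hm'2⟩ := (kef R Γ W N X Ω1 Ω1' (W × W) Ω' l G χ BN FN (MonoidHom.id _)
    (fun _ => 1) p (fun o => g (FX.h o)) hl hχ hχu (fun _ _ => rfl) (fun w o => by
      rw [FX.hw]
      exact (hS _).1 (h3 _ _ _))).1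
  obtain ⟨g', hg', hf⟩ := hoy R Γ W M N X Ω Ω' l G χ BX BN LinearMap.id FX m m'
    (one_le_two.trans hl) hm1 hm2 hm'1
  refine ⟨g', hg', fun n => (hS _).1 ?_⟩
  have e : g n = ∑ o, ∑ i ∈ Finset.range l, FX.c o (BX.lm (G.y ^ (l - 1 - i)) n) •
        g (BX.lm (G.y ^ i) (FX.g o)) +
      ∑ o, ∑ i ∈ Finset.range l, ∑ k ∈ Finset.range l,
        FX.d o (BX.lm (G.y ^ (l - 1 - i)) (BX.rm (op (G.y ^ (l - 1 - k))) n)) •
          g (BX.lm (G.y ^ i) (BX.rm (op (G.y ^ k)) (FX.h o))) := by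
    have e1 : g n = g (LinearMap.id (R := R) n) := rfl
    rw [e1, ← FX.fr n]
    simp only [map_add, map_sum, map_smul]
  have k1 : ∀ o i, BN.lm (G.y ^ i) (m o) - g (BX.lm (G.y ^ i) (FX.g o)) ∈ S := by
    intro o i
    have a := hlm (G.y ^ i) _ ((hS _).2 (hm3 o))
    rw [map_sub] at a
    have b := S.sub_mem a (h1 (G.y ^ i) (FX.g o))
    have e2 : BN.lm (G.y ^ i) (m o) - BN.lm (G.y ^ i) (g (FX.g o)) -
        (g (BX.lm (G.y ^ i) (FX.g o)) - BN.lm (G.y ^ i) (g (FX.g o))) =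
        BN.lm (G.y ^ i) (m o) - g (BX.lm (G.y ^ i) (FX.g o)) := by abel
    rwa [e2] at b
  have k2 : ∀ o i k, BN.lm (G.y ^ i) (BN.rm (op (G.y ^ k)) (m' o)) -
      g (BX.lm (G.y ^ i) (BX.rm (op (G.y ^ k)) (FX.h o))) ∈ S := by
    intro o i k
    have a := hlm (G.y ^ i) _ (hrm (op (G.y ^ k)) _ ((hS _).2 (hm'2 o)))
    rw [map_sub, map_sub] at a
    have b := S.sub_mem a (h3 (G.y ^ i) (op (G.y ^ k)) (FX.h o))
    have e2 : BN.lm (G.y ^ i) (BN.rm (op (G.y ^ k)) (m' o)) -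
        BN.lm (G.y ^ i) (BN.rm (op (G.y ^ k)) (g (FX.h o))) -
        (g (BX.lm (G.y ^ i) (BX.rm (op (G.y ^ k)) (FX.h o))) -
          BN.lm (G.y ^ i) (BN.rm (op (G.y ^ k)) (g (FX.h o)))) =
        BN.lm (G.y ^ i) (BN.rm (op (G.y ^ k)) (m' o)) -
          g (BX.lm (G.y ^ i) (BX.rm (op (G.y ^ k)) (FX.h o))) := by abel
    rwa [e2] at b
  rw [hf, e, add_sub_add_comm]
  simp only [← Finset.sum_sub_distrib, ← smul_sub]
  refine S.add_mem ?_ ?_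
  · exact S.sum_mem fun o _ => S.sum_mem fun i _ => S.smul_mem _ (k1 o i)
  · exact S.sum_mem fun o _ => S.sum_mem fun i _ => S.sum_mem fun k _ => S.smul_mem _ (k2 o i k)

end Pool.Agent.PFE.H62
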