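import Pool.Agent.PFE.StmtsE2

/-!
# Squad PFE, part E2, row FSY: the Frobenius system of `A1`
-/

set_option autoImplicit false

open scoped BigOperators

noncomputable section

namespace Pool.Agent.PFE.H62

open MulOpposite
open Pool.Agent.PFC.B1 (FS Split BiM Sep)
open Pool.Agent.PFD (RF)
open Pool.Agent.PFD.D2
open Pool.Agent.PFD.D2b (wrp FPl FrR WFS)
open Pool.Agent.PFE

theorem fsy (hG : GwfStmt) : FsyStmt := by
  intro R F Γ Γ0 W A A1 X N Ω Ω' _ _ c _ _ _ _ _ _ _ _ _ _ _ _ _ _ _ _ l G f χ j0 pr0 lz hl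
  obtain ⟨D, hlam, -, -, -⟩ := hG R Γ W l G hl
  have hfl : D.fs.lam = G.co (l - 1) 1 := hlam
  have hu : ∀ γ : Γ, lz.u * (lz.u' * γ) = γ := by
    intro γ; rw [← mul_assoc, lz.uu, one_mul]
  have hu' : ∀ γ : Γ, lz.u' * (lz.u * γ) = γ := by
    intro γ; rw [← mul_assoc, mul_comm lz.u' lz.u, lz.uu, one_mul]
  refine ⟨⟨lz.tA, fun p => lz.rf.x p.1 * lz.j (D.fs.b p.2),
    fun p => lz.j (lz.u' * D.fs.b' p.2) * lz.rf.y p.1, ?_, ?_⟩, rfl⟩
  · intro a
    have e : ∀ (k : N) (s : Fin l × W),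
        lz.tA (lz.j (lz.u' * D.fs.b' s) * lz.rf.y k * a) • (lz.rf.x k * lz.j (D.fs.b s)) =
          lz.rf.x k * lz.j (D.fs.lam (D.fs.b' s * lz.pr (lz.rf.y k * a)) • D.fs.b s) := by
      intro k s
      have e1 : lz.tA (lz.j (lz.u' * D.fs.b' s) * lz.rf.y k * a) =
          D.fs.lam (D.fs.b' s * lz.pr (lz.rf.y k * a)) := by
        rw [lz.ort, hfl, mul_assoc (lz.j (lz.u' * D.fs.b' s)), lz.pr_l, mul_assoc lz.u', hu]
      rw [e1, map_smul, mul_smul_comm]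
    rw [Fintype.sum_prod_type]
    simp only [e]
    have e2 : ∀ k : N, ∑ s : Fin l × W,
        lz.rf.x k * lz.j (D.fs.lam (D.fs.b' s * lz.pr (lz.rf.y k * a)) • D.fs.b s) =
          lz.rf.x k * lz.j (lz.pr (lz.rf.y k * a)) := by
      intro k
      rw [← Finset.mul_sum, ← map_sum, D.fs.h1]
    rw [Finset.sum_congr rfl (fun k _ => e2 k)]
    exact lz.rf.e1 a
  · intro a
    have e : ∀ (k : N) (s : Fin l × W),
        lz.tA (a * (lz.rf.x k * lz.j (D.fs.b s))) • (lz.j (lz.u' * D.fs.b' s) * lz.rf.y k) =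
          lz.j (lz.u' * (D.fs.lam (lz.u * lz.pr (a * lz.rf.x k) * D.fs.b s) • D.fs.b' s)) *
            lz.rf.y k := by
      intro k s
      have e1 : lz.tA (a * (lz.rf.x k * lz.j (D.fs.b s))) =
          D.fs.lam (lz.u * lz.pr (a * lz.rf.x k) * D.fs.b s) := by
        rw [lz.ort, hfl, ← mul_assoc a, lz.pr_r, mul_assoc lz.u]
      rw [e1, mul_smul_comm, map_smul, smul_mul_assoc]
    rw [Fintype.sum_prod_type]
    simp only [e]
    have e2 : ∀ k : N, ∑ s : Fin l × W,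
        lz.j (lz.u' * (D.fs.lam (lz.u * lz.pr (a * lz.rf.x k) * D.fs.b s) • D.fs.b' s)) *
            lz.rf.y k = lz.j (lz.pr (a * lz.rf.x k)) * lz.rf.y k := by
      intro k
      rw [← Finset.sum_mul, ← map_sum, ← Finset.mul_sum, D.fs.h2, hu']
    rw [Finset.sum_congr rfl (fun k _ => e2 k)]
    exact lz.rf.e2 a

end Pool.Agent.PFE.H62
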